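import Mathlib
import Pool.Agent.Helper892.TC.Main

/-!
# The truncated inequality on abelian surfaces: the exceptional set depends on `ε`

`K` is any number field, `E : y² = x³ + a x² + b x + c` an elliptic curve over `K` with infinitely
many rational points, `a, b, c` integral, `X = E × E` and `D = {O} × E + E × {O}`, an ample divisor
with normal crossings. We have `K_X = 0`. The model is the square of the Weierstrass model of `E`;
for every prime `p` the local height of a point with abscissas `x_0, x_1` is
`λ_{D,p} = (log⁺ |x_0|_p + log⁺ |x_1|_p) / 2`, as `x / y` is a local parameter at `O`. So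
`h_D = (h(x_0) + h(x_1)) / 2`, with the heights relative to `K`, and we also take `H = D`.

For the counting function without truncation the conjecture holds on `X` with an empty exceptional
set (Faltings 1991). With truncation the exceptional set depends on `ε`: it contains the curves of
the points `(Q, 2^n Q)` and `(2^n Q, Q)` with `4^n + 1 < 1 / ε`.

Proof. If the abscissa of `Q` is not integral at `p`, neither is the one of `2^n Q`, so the primes
counted at `(Q, 2^n Q)` are poles of the second abscissa, and they are poles of order at least two: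
`N^(1)_S(D, (Q, 2^n Q)) ≤ h(x(2^n Q)) / 2`. So `h_D - N^(1)_S ≥ h(x(Q)) / 2`, and
`h_D(Q, 2^n Q) = (4^n + 1) h(x(Q)) / 2 + O(1)`.
-/

set_option autoImplicit false

open NumberField Polynomial IsDedekindDomain

namespace Pool.Agent.Results.MP_9ec3f0_nt.AbelianSurfaceEpsilon

variable {K : Type} [Field K] [NumberField K]

/-- The height `h_D`, `D = {O} × E + E × {O}`, of the point of `E × E` with abscissas `x₀, x₁`
(`Height.logHeight₁` is the logarithmic height relative to `K`). -/
noncomputable def height (x₀ x₁ : K) : ℝ :=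
  (Height.logHeight₁ x₀ + Height.logHeight₁ x₁) / 2

/-- The local height of the point of `E × E` with abscissas `x₀, x₁` relative to
`D = {O} × E + E × {O}` at the prime `p`; the absolute value is `|x|_p = N(p) ^ (- ord_p x)`. -/
noncomputable def localHeight (p : HeightOneSpectrum (𝓞 K)) (x₀ x₁ : K) : ℝ :=
  (Real.posLog (HeightOneSpectrum.adicAbv K p x₀) + Real.posLog (HeightOneSpectrum.adicAbv K p x₁)) / 2

/-- The truncated counting function `N^(1)_S(D, P)`, the sum of `min {log N(p), λ_{D,p}(P)}` over the
primes `p` outside `S`, of the point with abscissas `x₀, x₁`. -/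
noncomputable def truncatedCounting (S : Finset (HeightOneSpectrum (𝓞 K))) (x₀ x₁ : K) : ℝ :=
  ∑ᶠ p ∈ {p : HeightOneSpectrum (𝓞 K) | p ∉ S},
    min (Real.log (Ideal.absNorm p.asIdeal : ℕ)) (localHeight p x₀ x₁)

/-- The inequality `N^(1)_S(D, P) ≥ h_{K_X + D}(P) - ε h_D(P) - C` for all `K`-rational points
`P = ((x 0, y 0), (x 1, y 1))` of `E × E` not on `D` outside the zero set of the polynomial
`G(x_0, x_1)`. -/
def VojtaInequality (a b c : 𝓞 K) (S : Finset (HeightOneSpectrum (𝓞 K))) (G : K[X][X])
    (ε C : ℝ) : Prop :=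
  ∀ x y : Fin 2 → K, (∀ i, y i ^ 2 = x i ^ 3 + a * x i ^ 2 + b * x i + c) →
    G.evalEval (x 0) (x 1) ≠ 0 →
    height (x 0) (x 1) - ε * height (x 0) (x 1) - C ≤ truncatedCounting S (x 0) (x 1)

/-- **The truncated inequality on `E × E`, `D = {O} × E + E × {O}`: the exceptional set depends on
`ε`.** Let `E : y² = x³ + a x² + b x + c` be an elliptic curve over the number field `K` (discriminant
`≠ 0`) with infinitely many rational points, `S` a finite set of primes and `G(x_0, x_1) ≠ 0` a
polynomial over `K` (the outer variable of `G` is `x_1`). If for some constant `C` the inequality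
`N^(1)_S(D, P) ≥ h_D(P) - ε h_D(P) - C` holds for all rational points `P` of `E × E` off `D` outside
the zero set of `G`, then the degree of `G` in each of the two variables is at least `4 ^ n` for each
`n` with `ε (4 ^ n + 1) < 1`. -/
theorem result (a b c : 𝓞 K)
    (hdisc : (a : K) ^ 2 * b ^ 2 - 4 * b ^ 3 - 4 * a ^ 3 * c - 27 * c ^ 2 + 18 * a * b * c ≠ 0)
    (hE : {P : K × K | P.2 ^ 2 = P.1 ^ 3 + a * P.1 ^ 2 + b * P.1 + c}.Infinite)
    (S : Finset (HeightOneSpectrum (𝓞 K))) (G : K[X][X]) (hG : G ≠ 0) (ε C : ℝ)
    (hV : VojtaInequality a b c S G ε C) (n : ℕ) (hn : ε * (4 ^ n + 1) < 1) :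
    (∃ i, 4 ^ n ≤ (G.coeff i).natDegree) ∧ 4 ^ n ≤ G.natDegree := by
  refine Pool.Agent.Helper892.TC.main a b c hdisc hE S G hG ε C ?_ n hn
  intro x₀ y₀ x₁ y₁ h₀ h₁ hne
  have h := hV ![x₀, x₁] ![y₀, y₁] (by
    intro i
    fin_cases i
    · exact h₀
    · exact h₁) hne
  have h2 : (Height.logHeight₁ x₀ + Height.logHeight₁ x₁) / 2 -
      ε * ((Height.logHeight₁ x₀ + Height.logHeight₁ x₁) / 2) - C ≤
      Pool.Agent.Helper892.TC.tc S x₀ x₁ := h
  linarith

end Pool.Agent.Results.MP_9ec3f0_nt.AbelianSurfaceEpsilon
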