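import Pool.Agent.Helper205_Exc.FormsFin2

/-!
# Points of large height, relative to the divisor and to one of its points

Let `α_1, …, α_q` be `q ≥ 3` distinct rational points of the projective line, `D` their sum, `S` a
finite set of primes and `η > 0`. There is an `M` such that for every `A` and all `X, Y ≥ 1` at most
`C X ^ η (X Y ^ (q - 2)) ^ (1 / (2 (q - 1)))` rational points `x` with
`M log X ≤ h(x) ≤ A log X` have `N_S^{(1)}(D, x) ≤ log X` and `N_S^{(1)}([α_i], x) ≤ log Y` for some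
`i`. Without a lower bound for the height the number of these points is, for `Y ^ q ≤ X`, of the
order `(X Y ^ (q - 2)) ^ (1 / (q - 1))` up to `X ^ η`.

The values of the `q` linear forms at `x` are flexible (divisible by some `r ^ E ≥ X ^ B` with
`r ≤ X ^ ε`) or products of powers of boundedly many small integers. If the value of one form is
flexible, two other values are proportional modulo `r ^ E`, and the pairs of integers of radicals
`≤ R`, `≤ R'` which are proportional modulo `r ^ E` are at most `X ^ ε (R R') ^ (1/2)` in number. This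
is used for the two smallest radicals; in the other cases the determinant method is applied.
-/

set_option autoImplicit false

namespace Pool.Agent.Results.MP_9ec3f0_nt.ComponentLargeHeights

open Finset

/-- Normalised coprime integer coordinates: each point `[x₀ : x₁]` of the projective line over `ℚ`
has exactly one such pair. -/
def Nrm (x : ℤ × ℤ) : Prop := IsCoprime x.1 x.2 ∧ (0 < x.2 ∨ x.2 = 0 ∧ 0 < x.1)

/-- The absolute logarithmic height of the point with the coprime integer coordinates `x`. -/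
noncomputable def h (x : ℤ × ℤ) : ℝ := Real.log (max |(x.1 : ℝ)| |(x.2 : ℝ)|)

/-- the linear form `x₀ a₁ - x₁ a₀` that vanishes at the point `[a₀ : a₁]` -/
def form (a x : ℤ × ℤ) : ℤ := x.1 * a.2 - x.2 * a.1

/-- The truncated counting function `N_S^{(1)}(D, x)` of the divisor `D = ∑ [α_i]`: the sum of
`log p` over the primes `p ∉ S` dividing one of the `form (α i) x`. -/
noncomputable def N1 {q : ℕ} (α : Fin q → ℤ × ℤ) (S : Finset ℕ) (x : ℤ × ℤ) : ℝ :=
  ∑ p ∈ (∏ i, form (α i) x).natAbs.primeFactors \ S, Real.log p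

/-- The truncated counting function `N_S^{(1)}([a], x)` of the single point `a`. -/
noncomputable def N1s (a : ℤ × ℤ) (S : Finset ℕ) (x : ℤ × ℤ) : ℝ :=
  ∑ p ∈ (form a x).natAbs.primeFactors \ S, Real.log p

/-- The points `x` of the projective line over `ℚ`, different from all the `α_i`, with
`N_S^{(1)}(D, x) ≤ log X`, with `N_S^{(1)}([α_i], x) ≤ log Y` for some `i`, and with
`M log X ≤ h(x) ≤ A log X`. -/
def Pts {q : ℕ} (α : Fin q → ℤ × ℤ) (S : Finset ℕ) (M A X Y : ℝ) : Set (ℤ × ℤ) :=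
  {x | Nrm x ∧ (∀ i, form (α i) x ≠ 0) ∧ N1 α S x ≤ Real.log X ∧
    (∃ i, N1s (α i) S x ≤ Real.log Y) ∧ M * Real.log X ≤ h x ∧ h x ≤ A * Real.log X}

/-- the linear forms -/
def FL {q : ℕ} (α : Fin q → ℤ × ℤ)
    (hα : ∀ i j, i ≠ j → (α i).1 * (α j).2 ≠ (α j).1 * (α i).2) : Pool.Agent.TH867.QF.Fm q where
  u i := (α i).2
  w i := - (α i).1
  res i j hij h0 := hα i j hij (by linarith)

open Pool.Agent.TH867.QF Pool.Agent.Helper205_Exc

theorem ev_eq {q : ℕ} (α : Fin q → ℤ × ℤ)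
    (hα : ∀ i j, i ≠ j → (α i).1 * (α j).2 ≠ (α j).1 * (α i).2) (x : ℤ × ℤ) (i : Fin q) :
    ev (FL α hα) x i = form (α i) x := by
  unfold ev FL form
  ring

theorem va_eq {q : ℕ} (α : Fin q → ℤ × ℤ)
    (hα : ∀ i j, i ≠ j → (α i).1 * (α j).2 ≠ (α j).1 * (α i).2) (x : ℤ × ℤ) (i : Fin q) :
    va (FL α hα) x i = (form (α i) x).natAbs := by
  unfold va
  rw [ev_eq]

theorem h_eq (x : ℤ × ℤ) : h x = Real.log (ht x) := by
  unfold h ht
  rw [Nat.cast_max, Nat.cast_natAbs, Nat.cast_natAbs, Int.cast_abs, Int.cast_abs]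

theorem fin_ht (N : ℕ) : {x : ℤ × ℤ | ht x ≤ N}.Finite := by
  apply Set.Finite.subset (Finset.finite_toSet (Finset.Icc (-(N : ℤ)) N ×ˢ Finset.Icc (-(N : ℤ)) N))
  intro x hx
  have hx' : ht x ≤ N := hx
  have h1 : x.1.natAbs ≤ N := (le_max_left _ _).trans hx'
  have h2 : x.2.natAbs ≤ N := (le_max_right _ _).trans hx'
  rw [Finset.mem_coe, Finset.mem_product, Finset.mem_Icc, Finset.mem_Icc]
  omega

/-- the properties of the points used -/
theorem pt_of {q : ℕ} {α : Fin q → ℤ × ℤ}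
    {hα : ∀ i j, i ≠ j → (α i).1 * (α j).2 ≠ (α j).1 * (α i).2} {x : ℤ × ℤ} (hx : Nrm x)
    (hne : ∀ i, form (α i) x ≠ 0) : Pt (FL α hα) x where
  cop := hx.1
  ne i := by rw [ev_eq]; exact hne i

/-- a sum of logarithms of primes and a product of primes -/
theorem log_prod_primes {F : Finset ℕ} (hF : ∀ p ∈ F, p.Prime) {W : ℝ} (hW : 0 < W)
    (h : ∑ p ∈ F, Real.log p ≤ Real.log W) : ((∏ p ∈ F, p : ℕ) : ℝ) ≤ W := by
  have hpos : (0 : ℝ) < ∏ p ∈ F, (p : ℝ) :=
    Finset.prod_pos fun p hp => by exact_mod_cast (hF p hp).pos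
  push_cast
  rw [← Real.log_le_log_iff hpos hW, Real.log_prod (fun p hp => by
    have := (hF p hp).pos
    positivity)]
  exact h

/-- the radicals of the values -/
theorem prod_le {q : ℕ} {α : Fin q → ℤ × ℤ}
    {hα : ∀ i j, i ≠ j → (α i).1 * (α j).2 ≠ (α j).1 * (α i).2} {S : Finset ℕ} {x : ℤ × ℤ}
    (hx : Pt (FL α hα) x) {W : ℝ} (hW : 0 < W) (hN : N1 α S x ≤ Real.log W) :
    ((∏ i, ∏ p ∈ (va (FL α hα) x i).primeFactors \ (S ∪ (Rs (FL α hα)).primeFactors), p : ℕ) : ℝ) ≤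
      W := by
  classical
  obtain ⟨G, hG⟩ : ∃ G : Fin q → Finset ℕ, G = fun i =>
    (va (FL α hα) x i).primeFactors \ (S ∪ (Rs (FL α hα)).primeFactors) := ⟨_, rfl⟩
  have hdis : Set.PairwiseDisjoint (↑(univ : Finset (Fin q))) G := by
    intro i _ j _ hij
    show Disjoint (G i) (G j)
    rw [Finset.disjoint_left]
    intro p hp hp'
    rw [hG, mem_sdiff] at hp hp'
    have hpp := Nat.prime_of_mem_primeFactors hp.1
    have h3 : (p : ℤ) ∣ ev (FL α hα) x i := by
      rw [Int.natCast_dvd]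
      exact Nat.dvd_of_mem_primeFactors hp.1
    have h4 : (p : ℤ) ∣ ev (FL α hα) x j := by
      rw [Int.natCast_dvd]
      exact Nat.dvd_of_mem_primeFactors hp'.1
    have h5 : p ∣ Rs (FL α hα) := (Int.natCast_dvd.1 (dvd_rs hx h3 h4)).trans (rs_dvd _ hij)
    exact hp.2 (mem_union_right _ (Nat.mem_primeFactors.mpr ⟨hpp, h5, (Rs_pos _).ne'⟩))
  have hne : (∏ i, form (α i) x).natAbs ≠ 0 := by
    rw [Int.natAbs_ne_zero]
    apply Finset.prod_ne_zero_iff.mpr
    intro i _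
    have := hx.ne i
    rwa [ev_eq] at this
  have h1 : ∏ i, ∏ p ∈ G i, p = ∏ p ∈ univ.biUnion G, p := (Finset.prod_biUnion hdis).symm
  have h2 : ∏ p ∈ univ.biUnion G, p ≤ ∏ p ∈ (∏ i, form (α i) x).natAbs.primeFactors \ S, p := by
    apply Finset.prod_le_prod_of_subset_of_one_le'
    · intro p hp
      rw [mem_biUnion] at hp
      obtain ⟨i, -, hp⟩ := hp
      rw [hG, mem_sdiff] at hp
      have hpp := Nat.prime_of_mem_primeFactors hp.1
      rw [mem_sdiff]
      refine ⟨?_, fun hS => hp.2 (mem_union_left _ hS)⟩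
      rw [Nat.mem_primeFactors]
      refine ⟨hpp, ?_, hne⟩
      have h3 := Nat.dvd_of_mem_primeFactors hp.1
      rw [va_eq] at h3
      exact h3.trans (Int.natAbs_dvd_natAbs.mpr (Finset.dvd_prod_of_mem (fun i => form (α i) x)
        (mem_univ i)))
    · intro p hp _
      exact (Nat.prime_of_mem_primeFactors (mem_sdiff.mp hp).1).pos
  have h3 := log_prod_primes (F := (∏ i, form (α i) x).natAbs.primeFactors \ S)
    (fun p hp => Nat.prime_of_mem_primeFactors (mem_sdiff.mp hp).1) hW hN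
  have h4 : ∏ i, ∏ p ∈ (va (FL α hα) x i).primeFactors \ (S ∪ (Rs (FL α hα)).primeFactors), p ≤
      ∏ p ∈ (∏ i, form (α i) x).natAbs.primeFactors \ S, p := by
    rw [hG] at h1 h2
    rw [h1]
    exact h2
  exact le_trans (by exact_mod_cast h4) h3

theorem one_le {q : ℕ} {α : Fin q → ℤ × ℤ}
    {hα : ∀ i j, i ≠ j → (α i).1 * (α j).2 ≠ (α j).1 * (α i).2} {S : Finset ℕ} {x : ℤ × ℤ}
    {W : ℝ} (hW : 0 < W) {i : Fin q} (hN : N1s (α i) S x ≤ Real.log W) :
    ((∏ p ∈ (va (FL α hα) x i).primeFactors \ (S ∪ (Rs (FL α hα)).primeFactors), p : ℕ) : ℝ) ≤ W := by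
  have h3 := log_prod_primes (F := (form (α i) x).natAbs.primeFactors \ S)
    (fun p hp => Nat.prime_of_mem_primeFactors (mem_sdiff.mp hp).1) hW hN
  refine le_trans ?_ h3
  rw [va_eq]
  have : ∏ p ∈ (form (α i) x).natAbs.primeFactors \ (S ∪ (Rs (FL α hα)).primeFactors), p ≤
      ∏ p ∈ (form (α i) x).natAbs.primeFactors \ S, p := by
    apply Finset.prod_le_prod_of_subset_of_one_le'
    · exact Finset.sdiff_subset_sdiff (Finset.Subset.refl _) subset_union_left
    · intro p hp _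
      exact (Nat.prime_of_mem_primeFactors (mem_sdiff.mp hp).1).pos
  exact_mod_cast this

/-- Let `α_1, …, α_q` be `q ≥ 3` distinct points of the projective line over `ℚ`, `S` a finite set
of primes and `η > 0`. There is an `M` such that for every `A` there is a `C` with: for all real
`X, Y ≥ 1` the set `Pts α S M A X Y` is finite and has at most
`C X ^ η (X Y ^ (q - 2)) ^ (1 / (2 (q - 1)))` elements. -/
theorem result (q : ℕ) (hq : 3 ≤ q) (α : Fin q → ℤ × ℤ)
    (hα : ∀ i j, i ≠ j → (α i).1 * (α j).2 ≠ (α j).1 * (α i).2) (S : Finset ℕ) (η : ℝ)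
    (hη : 0 < η) : ∃ M : ℕ, ∀ A : ℕ, ∃ C : ℝ, 0 < C ∧ ∀ X Y : ℝ, 1 ≤ X → 1 ≤ Y →
      (Pts α S M A X Y).Finite ∧ ((Pts α S M A X Y).ncard : ℝ) ≤
        C * X ^ η * (X * Y ^ (q - 2)) ^ ((1 : ℝ) / (2 * ((q : ℝ) - 1))) := by
  classical
  obtain ⟨M, hmain⟩ := Pool.Agent.Helper205_Exc.forms_main2 hq (FL α hα)
    (S ∪ (Rs (FL α hα)).primeFactors) η hη
  refine ⟨M, ?_⟩
  intro A
  obtain ⟨C, hC, hmain⟩ := hmain A
  obtain ⟨C0, hC0⟩ : ∃ C0 : ℕ, C0 = {x : ℤ × ℤ | ht x ≤ 2 ^ A}.ncard := ⟨_, rfl⟩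
  refine ⟨C + C0, by positivity, ?_⟩
  intro X Y hX hY
  have hX0 : 0 < X := by linarith
  have hq1 : (0 : ℝ) < (q : ℝ) - 1 := by
    have : (3 : ℝ) ≤ q := by exact_mod_cast hq
    linarith
  have hht : ∀ x ∈ Pts α S M A X Y, 0 < ht x := fun x hx => ht_pos (pt_of (hα := hα) hx.1 hx.2.1)
  have hup : ∀ x ∈ Pts α S M A X Y, (ht x : ℝ) ≤ X ^ A := by
    intro x hx
    have h1 := hx.2.2.2.2.2
    rw [h_eq, ← Real.log_pow] at h1
    exact (Real.log_le_log_iff (by exact_mod_cast hht x hx) (by positivity)).mp h1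
  have hlow : ∀ x ∈ Pts α S M A X Y, X ^ M ≤ (ht x : ℝ) := by
    intro x hx
    have h1 := hx.2.2.2.2.1
    rw [h_eq, ← Real.log_pow] at h1
    exact (Real.log_le_log_iff (by positivity) (by exact_mod_cast hht x hx)).mp h1
  have hfin : (Pts α S M A X Y).Finite := by
    apply (fin_ht ⌊X ^ A⌋₊).subset
    intro x hx
    exact Nat.le_floor (hup x hx)
  refine ⟨hfin, ?_⟩
  obtain ⟨V, hV⟩ : ∃ V : ℝ, V = (X * Y ^ (q - 2)) ^ ((1 : ℝ) / (2 * ((q : ℝ) - 1))) := ⟨_, rfl⟩
  have hV1 : 1 ≤ V := by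
    rw [hV]
    apply Real.one_le_rpow _ (by positivity)
    have := one_le_pow₀ hY (n := q - 2)
    nlinarith
  have hXe : 1 ≤ X ^ η := Real.one_le_rpow hX hη.le
  rw [← hV]
  rcases le_or_gt 2 X with hX2 | hX2
  · have h1 := hmain X Y hX2 hY hfin.toFinset (by
      intro x hx
      rw [Set.Finite.mem_toFinset] at hx
      obtain ⟨i, hi⟩ := hx.2.2.2.1
      exact ⟨pt_of hx.1 hx.2.1, hlow x hx, hup x hx,
        prod_le (pt_of hx.1 hx.2.1) hX0 hx.2.2.1, i, one_le (by linarith) hi⟩)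
    rw [← hV] at h1
    rw [Set.ncard_eq_toFinset_card _ hfin]
    refine h1.trans ?_
    have h2 : (0 : ℝ) ≤ C0 := Nat.cast_nonneg _
    have h3 : (0 : ℝ) ≤ X ^ η * V := by positivity
    nlinarith
  · have h1 : (Pts α S M A X Y).ncard ≤ C0 := by
      rw [hC0]
      apply Set.ncard_le_ncard _ (fin_ht _)
      intro x hx
      have h2 : (ht x : ℝ) ≤ ((2 ^ A : ℕ) : ℝ) := by
        push_cast
        exact (hup x hx).trans (pow_le_pow_left₀ hX0.le hX2.le A)
      exact_mod_cast h2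
    have h2 : ((Pts α S M A X Y).ncard : ℝ) ≤ C0 := by exact_mod_cast h1
    have h3 : (0 : ℝ) ≤ C0 := Nat.cast_nonneg _
    have h4 : 1 ≤ X ^ η * V := by nlinarith
    nlinarith

end Pool.Agent.Results.MP_9ec3f0_nt.ComponentLargeHeights
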