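import Mathlib
import Pool.Agent.Helper892.SW.Main

/-!
# The error term of the truncated inequality on projective space

`k` is any number field, `X = ℙ^n` and `D = {x_0 ⋯ x_n F(x) = 0}` where `F` is a form of degree `d`
with a zero of multiplicity at least `μ ≥ 1` at the point `(1 : … : 1)`. For example, `F` is a product
of `μ ≤ n` linear forms with zero sum of coefficients, and `D` is a sum of `n + 1 + μ` hyperplanes in
general position. Here `h_{K_X + D} = d h`.

The theorem: for every exponent `β < μ / (μ + 1)` and every proper closed subset `Z` of `ℙ^n` there are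
points `P` outside `Z`, of arbitrarily large height, with `N^(1)(D, P) + h(P)^β ≤ d h(P)`. So the term
`ε h_H(P)` in the conjecture cannot be replaced by `h_H(P)^β`, for any `β < μ / (μ + 1)`, whatever the
exceptional set. For `2 n + 1` hyperplanes in general position this is so for all `β < n / (n + 1)`.

Proof: consider the divisors of `R ^ A`, where `R` is the product of the odd primes up to `Y`. There
are so many of them, by the pigeonhole principle, that the polynomial which defines `Z` does not
vanish at all tuples of such divisors which are congruent modulo `2 ^ m`, where `m` is about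
`Y / log 2`. At such a tuple the value of `F` is divisible by `2 ^ (μ m)`.
-/

set_option autoImplicit false

open NumberField IsDedekindDomain MvPolynomial

namespace Pool.Agent.Results.MP_9ec3f0_nt.MultiplicityErrorTerm

variable {k : Type} [Field k] [NumberField k] {n : ℕ}

/-- The local height `λ_{D,q}(x) = log (max |x_i|_q ^ deg Φ / |Φ(x)|_q)` of the point
`x = (x_0 : … : x_n)` of `ℙ^n(k)` for the hypersurface `D : Φ = 0` and the prime `q` of `k`; here
`|π|_q = 1 / N(q)` if `π` generates `q` locally. -/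
noncomputable def localHeight (q : HeightOneSpectrum (𝓞 k)) (Φ : MvPolynomial (Fin (n + 1)) (𝓞 k))
    (x : Fin (n + 1) → k) : ℝ :=
  Φ.totalDegree * Real.log (⨆ i, HeightOneSpectrum.adicAbv k q (x i)) -
    Real.log (HeightOneSpectrum.adicAbv k q (aeval x Φ))

/-- The truncated counting function `N^(1)(D, x)` for the hypersurface `D : Φ = 0` of `ℙ^n`: the sum
of `log N(q)` over all primes `q` of `k` with `λ_{D,q}(x) > 0`. -/
noncomputable def truncatedCounting (Φ : MvPolynomial (Fin (n + 1)) (𝓞 k)) (x : Fin (n + 1) → k) :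
    ℝ :=
  ∑ᶠ q ∈ {q : HeightOneSpectrum (𝓞 k) | 0 < localHeight q Φ x},
    Real.log (Ideal.absNorm q.asIdeal : ℕ)

/-- The ideal of the point `(1 : … : 1)`. -/
noncomputable def pointIdeal (k : Type) [Field k] (n : ℕ) :
    Ideal (MvPolynomial (Fin (n + 1)) (𝓞 k)) :=
  Ideal.span (Set.range fun i : Fin (n + 1) => X i - X 0)

/-- **The error term of the truncated inequality on projective space.**
Let `k` be a number field, `F` a form of degree `d` with integral coefficients in the `μ`-th power
(`μ ≥ 1`) of the ideal of the point `(1 : … : 1)`, `D` the divisor `x_0 ⋯ x_n F(x) = 0` of `ℙ^n` and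
`0 < β < μ / (μ + 1)`. For every form `G ≠ 0` over `k` there are points `x` of `ℙ^n(k)` of arbitrarily
large height, off `D` and with `G(x) ≠ 0`, such that
`N^(1)(D, x) + h(x) ^ β ≤ d h(x) = h_{K + D}(x)`, where `h = Height.logHeight` is the height relative
to `k`. (The set `{q | 0 < localHeight q _ x}` is finite for these points.) -/
theorem result (μ d e : ℕ) (hμ : 1 ≤ μ) (F : MvPolynomial (Fin (n + 1)) (𝓞 k)) (hF0 : F ≠ 0)
    (hFd : F.IsHomogeneous d) (hF : F ∈ pointIdeal k n ^ μ)
    (G : MvPolynomial (Fin (n + 1)) k) (hG0 : G ≠ 0) (hGe : G.IsHomogeneous e)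
    (β : ℝ) (hβ0 : 0 < β) (hβ : β < μ / (μ + 1)) (B : ℝ) :
    ∃ x : Fin (n + 1) → k, (∀ i, x i ≠ 0) ∧ aeval x F ≠ 0 ∧ eval x G ≠ 0 ∧
      B ≤ Height.logHeight x ∧
      {q : HeightOneSpectrum (𝓞 k) | 0 < localHeight q ((∏ i, X i) * F) x}.Finite ∧
      truncatedCounting ((∏ i, X i) * F) x + Height.logHeight x ^ β ≤ d * Height.logHeight x := by
  obtain ⟨x, R, A, hR0, hx0, hxR, hxF, hxG, hxB, hV⟩ :=
    Pool.Agent.Helper892.SW.main hμ F hF0 hFd hF G hG0 hGe β hβ0 hβ B
  set y : Fin (n + 1) → k := fun i => ((x i : ℕ) : k) with hy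
  have hy0 : ∀ i, y i ≠ 0 := fun i => by
    have : (x i : ℕ) ≠ 0 := (hx0 i).ne'
    simpa [hy] using this
  have hyF : aeval y F = ((Pool.Agent.Helper892.SW.ev F x : 𝓞 k) : k) := by
    rw [Pool.Agent.Helper892.SW.ev_coe, eval_map]
    rfl
  have hyF0 : aeval y F ≠ 0 := by
    rw [hyF]
    exact fun h => hxF (RingOfIntegers.coe_eq_zero_iff.1 h)
  have hset : ∀ q ∈ {q : HeightOneSpectrum (𝓞 k) | 0 < localHeight q ((∏ i, X i) * F) y},
      ((R : ℕ) : 𝓞 k) ∈ q.asIdeal ∨ ((2 : ℕ) : 𝓞 k) ∈ q.asIdeal ∨
        Pool.Agent.Helper892.SW.ev F x ∈ q.asIdeal := by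
    intro q hq
    by_contra hcon
    push Not at hcon
    obtain ⟨h1, -, h3⟩ := hcon
    have hx1 : ∀ i, HeightOneSpectrum.adicAbv k q (y i) = 1 := by
      intro i
      by_contra h
      exact h1 (Pool.Agent.Helper892.ST.av_nat_ne (hxR i) q h)
    have hF1 : HeightOneSpectrum.adicAbv k q (aeval y F) = 1 := by
      rw [hyF]
      exact (Pool.Agent.Helper892.SE.av_eq_one_iff q _).2 h3
    have : localHeight q ((∏ i, X i) * F) y = 0 := by
      unfold localHeight
      have hs : (⨆ i, HeightOneSpectrum.adicAbv k q (y i)) = 1 := by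
        simp only [hx1]
        exact ciSup_const
      rw [hs, map_mul, map_prod, map_mul, map_prod, hF1]
      simp only [aeval_X, hx1]
      simp
    have hq' : 0 < localHeight q ((∏ i, X i) * F) y := hq
    exact hq'.ne' this
  refine ⟨y, hy0, hyF0, hxG, hxB.le, ?_, hV _ hset⟩
  have hfin : {q : HeightOneSpectrum (𝓞 k) |
      (((R : ℕ) : 𝓞 k) * ((2 : ℕ) : 𝓞 k) * Pool.Agent.Helper892.SW.ev F x) ∈ q.asIdeal}.Finite := by
    have h0 : Ideal.span {((R : ℕ) : 𝓞 k) * ((2 : ℕ) : 𝓞 k) *
        Pool.Agent.Helper892.SW.ev F x} ≠ 0 := by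
      rw [Ne, Ideal.zero_eq_bot, Ideal.span_singleton_eq_bot]
      refine mul_ne_zero (mul_ne_zero ?_ ?_) hxF
      · exact_mod_cast hR0.ne'
      · exact Nat.cast_ne_zero.2 two_ne_zero
    refine (Ideal.finite_factors h0).subset fun w hw => ?_
    show w.asIdeal ∣ _
    rw [Ideal.dvd_span_singleton]
    exact hw
  exact hfin.subset fun q hq => by
    rcases hset q hq with h | h | h
    · exact Ideal.mul_mem_right _ _ (Ideal.mul_mem_right _ _ h)
    · exact Ideal.mul_mem_right _ _ (Ideal.mul_mem_left _ _ h)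
    · exact Ideal.mul_mem_left _ _ h

end Pool.Agent.Results.MP_9ec3f0_nt.MultiplicityErrorTerm
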