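import Pool.Agent.H902D.Final

set_option autoImplicit false

/-!
# The error term for divisors with a point of degree two

`X = P^1` over `ℚ`, `S = {∞}`, `D = {y = 0} + {Q = 0} + {G = 0}`, where `Q = a x² + b x y + c y²` is
irreducible over `ℚ` and `G` is an arbitrary form of degree `m`. For coprime integers `x, y`,
`h(x : y) = log max(|x|, |y|)`, `N_S^(1)(D, (x : y))` is the sum of `log p` over the primes dividing
`y Q(x, y) G(x, y)` and `h_{K_X + D} = (m + 1) h + O(1)`.
There are infinitely many points with `N_S^(1)(D, P) + κ √h / log h + C ≤ (m + 1) h`.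

The complement of `Q = 0` is a torus which is not split, with the point `y = 0` as the origin.
Every prime `l ≡ 1` modulo `4 |Δ|` divides the norm of a small element `β_l` of `ℤ[√Δ]` (Thue). The box
principle, applied to the products of powers of the `β_l`, `l ≤ z`, with exponents at most `8 z`, in the
projective line over `ℤ / p^k`, gives a point at which `y` is divisible by `p^k`, `p^k ≥ (8 z)^r / C`,
and `Q` is divisible only by the `r` primes `l` and by bounded primes.
-/

namespace Pool.Agent.Results.MP_9ec3f0_nt.NonSplitErrorTerm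

open MvPolynomial

/-- the height `h(x : y)` of the point `(x : y)`, `x` and `y` being coprime integers -/
noncomputable def h (x y : ℤ) : ℝ := Real.log ((max |x| |y| : ℤ) : ℝ)

/-- the sum of `log p` over the primes dividing `n` -/
noncomputable def rad (n : ℤ) : ℝ := ∑ p ∈ n.natAbs.primeFactors, Real.log p

/-- Let `Q = a x² + b x y + c y²`, `a ≠ 0`, have a discriminant which is not a square, and let `G ≠ 0` be
a form of degree `m`. There is `κ > 0` such that for every real `C` there are coprime integers `x, y` with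
`y ≠ 0`, `Q(x, y) ≠ 0`, `G(x, y) ≠ 0`, `h(x, y) > C` and
`rad(y Q(x, y) G(x, y)) + κ √h / log h + C ≤ (m + 1) h`. -/
theorem result (a b c : ℤ) (ha : a ≠ 0) (hd : ¬ IsSquare (b ^ 2 - 4 * a * c)) (m : ℕ)
    (G : MvPolynomial (Fin 2) ℤ) (hG : G.IsHomogeneous m) (hG0 : G ≠ 0) :
    ∃ κ : ℝ, 0 < κ ∧ ∀ C : ℝ, ∃ x y : ℤ, IsCoprime x y ∧ y ≠ 0 ∧
      a * x ^ 2 + b * x * y + c * y ^ 2 ≠ 0 ∧ eval ![x, y] G ≠ 0 ∧ C < h x y ∧
      rad (y * (a * x ^ 2 + b * x * y + c * y ^ 2) * eval ![x, y] G) +
        κ * (Real.sqrt (h x y) / Real.log (h x y)) + C ≤ (m + 1) * h x y := by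
  have e : b ^ 2 - 4 * a * c = b * b - 4 * a * c := by ring
  rw [e] at hd
  obtain ⟨κ, hκ, hmain⟩ := Pool.Agent.H902D.main a b c ha hd m G hG hG0
  refine ⟨κ, hκ, fun C => ?_⟩
  obtain ⟨x, y, h1, h2, h3, h4, h5, h6⟩ := hmain C
  refine ⟨x, y, h1, h2, h3, h4, h5, ?_⟩
  unfold rad h
  linarith

end Pool.Agent.Results.MP_9ec3f0_nt.NonSplitErrorTerm
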